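import Pool.Agent.Helper62_BEH.MMX

/-!
# Row SMP of squad BEH (problem MP_be01ff_an): the first eigenvalue of a connected domain is simple
-/

set_option autoImplicit false

namespace Pool.Agent.BEH.H62

open Set Filter Topology MeasureTheory
open scoped InnerProductSpace ENNReal
open Pool.Agent.BE01 Pool.Agent.BEL Pool.Agent.BEH

noncomputable section

theorem mu_neBot {d : ℕ} {Ω : Set (En d)} (h : Dom Ω) : (ae (mu Ω)).NeBot := by
  have h1 : volume Ω ≠ 0 := (h.1.measure_pos volume h.2.2).ne'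
  have h2 : mu Ω ≠ 0 := by
    intro h0
    apply h1
    have h3 : mu Ω Set.univ = 0 := by rw [h0]; rfl
    unfold mu at h3
    rwa [Measure.restrict_apply_univ] at h3
  exact ae_neBot.2 h2

/-- The first eigenfunctions do not change sign. -/
theorem sgn (hA : AbvStmt) (hM : MneStmt) (hP : PosStmt) {d : ℕ} {Ω : Set (En d)}
    {ι : VV Ω →L[ℝ] Lp ℝ 2 (mu Ω)} {b : HilbertBasis ℕ ℝ (Lp ℝ 2 (mu Ω))}
    {e : HilbertBasis ℕ ℝ (VV Ω)} {om : ℕ → ℝ} (hd : d = 2 ∨ d = 3) (hO : Ok Ω ι b e om)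
    (hc : IsConnected Ω) (k : ℕ) (hk : om k = om 0) (B : ℝ) (f : En d → ℝ) (hf : Bm B f)
    (hfb : f =ᵐ[mu Ω] b k) :
    ∃ s : ℝ, (s = 1 ∨ s = -1) ∧ ∀ᵐ y ∂(mu Ω), 0 < s * b k y := by
  haveI := mu_neBot hO.dom
  obtain ⟨G, hGdef⟩ : ∃ G : VV Ω, G = om k • e k := ⟨_, rfl⟩
  have hιG : ι G = b k := by
    rw [hGdef, map_smul, iota_e hO.spec, smul_smul, mul_inv_cancel₀ (hO.spec.pos k).ne',
      one_smul]
  have hGn : ‖G‖ ^ 2 = om 0 ^ 2 := by
    rw [hGdef, norm_smul, e.orthonormal.1 k, mul_one, Real.norm_eq_abs, sq_abs, hk]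
  obtain ⟨H, hH, hHn⟩ := hA d Ω ι hO.dom hO.emb G
  rw [hιG] at hH
  have hιHn : ‖ι H‖ = 1 := by
    rw [← b.orthonormal.1 k, Lp.norm_def, Lp.norm_def]
    congr 1
    apply eLpNorm_congr_norm_ae
    filter_upwards [hH] with y hy
    rw [hy, Real.norm_eq_abs, Real.norm_eq_abs, abs_abs]
  have hG1 := hM d Ω ι b e om hO.spec G (by
    rw [hGn, hιG, b.orthonormal.1 k]
    norm_num)
  have hH1 := hM d Ω ι b e om hO.spec H (by
    rw [hιHn]
    have h1 : ‖H‖ ^ 2 ≤ ‖G‖ ^ 2 := pow_le_pow_left₀ (norm_nonneg _) hHn 2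
    rw [hGn] at h1
    linarith)
  have hB : ∀ᵐ y ∂(mu Ω), |b k y| ≤ B := by
    filter_upwards [hfb] with y hy
    rw [← hy]
    exact hf.2 y
  have hPe : ∀ᵐ y ∂(mu Ω), ι (H + G) y = |b k y| + b k y := by
    rw [map_add, hιG]
    filter_upwards [Lp.coeFn_add (ι H) (b k), hH] with y h1 h2
    rw [h1, Pi.add_apply, h2]
  have hQe : ∀ᵐ y ∂(mu Ω), ι (H - G) y = |b k y| - b k y := by
    rw [map_sub, hιG]
    filter_upwards [Lp.coeFn_sub (ι H) (b k), hH] with y h1 h2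
    rw [h1, Pi.sub_apply, h2]
  have hPp := hP d Ω ι (H + G) (om 0 ^ 2) (2 * B) hd hO.dom hc hO.emb (sq_nonneg _)
    (by
      filter_upwards [hPe, hB] with y h1 h2
      rw [h1]
      have h3 := neg_abs_le (b k y)
      have h4 := le_abs_self (b k y)
      exact ⟨by linarith, by linarith⟩)
    (fun G' => by
      rw [inner_add_left, hH1, hG1, map_add, inner_add_left]
      ring)
  have hQp := hP d Ω ι (H - G) (om 0 ^ 2) (2 * B) hd hO.dom hc hO.emb (sq_nonneg _)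
    (by
      filter_upwards [hQe, hB] with y h1 h2
      rw [h1]
      have h3 := neg_abs_le (b k y)
      have h4 := le_abs_self (b k y)
      exact ⟨by linarith, by linarith⟩)
    (fun G' => by
      rw [inner_sub_left, hH1, hG1, map_sub, inner_sub_left]
      ring)
  have hnz : ∀ F : Lp ℝ 2 (mu Ω), F = 0 → ∀ᵐ y ∂(mu Ω), F y = 0 := by
    intro F hF
    rw [hF]
    exact Lp.coeFn_zero ℝ 2 (mu Ω)
  have hbn : ¬ ∀ᵐ y ∂(mu Ω), b k y = 0 := by
    intro h0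
    have h1 : b k = 0 := by
      rw [Lp.ext_iff]
      filter_upwards [h0, Lp.coeFn_zero ℝ 2 (mu Ω)] with y h2 h3
      rw [h2, h3]
      rfl
    have h2 := b.orthonormal.1 k
    rw [h1, norm_zero] at h2
    exact zero_ne_one h2
  by_cases hP0 : ι (H + G) = 0
  · by_cases hQ0 : ι (H - G) = 0
    · exfalso
      apply hbn
      filter_upwards [hnz _ hP0, hnz _ hQ0, hPe, hQe] with y h1 h2 h3 h4
      linarith
    · refine ⟨-1, Or.inr rfl, ?_⟩
      filter_upwards [hnz _ hP0, hQp hQ0, hPe, hQe] with y h1 h2 h3 h4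
      linarith
  · by_cases hQ0 : ι (H - G) = 0
    · refine ⟨1, Or.inl rfl, ?_⟩
      filter_upwards [hPp hP0, hnz _ hQ0, hPe, hQe] with y h1 h2 h3 h4
      linarith
    · exfalso
      have hev : ∀ᵐ y ∂(mu Ω), False := by
        filter_upwards [hPp hP0, hQp hQ0, hPe, hQe] with y h1 h2 h3 h4
        rw [h3] at h1
        rw [h4] at h2
        rcases abs_choice (b k y) with h5 | h5
        · linarith
        · linarith
      obtain ⟨y, hy⟩ := hev.exists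
      exact hy

/-- Row SMP. -/
theorem smp (hR : RepStmt) (hA : AbvStmt) (hM : MneStmt) (hP : PosStmt) : SmpStmt := by
  intro d Ω ι b e om hd hO hc
  haveI := mu_neBot hO.dom
  by_contra hn
  have h01 : om 1 = om 0 := le_antisymm (not_lt.1 hn) (hO.spec.mono (Nat.zero_le 1))
  obtain ⟨B, f, -, hf, hfb, -⟩ := hR d Ω ι b e om hd hO 2
  obtain ⟨s, hs, hs'⟩ := sgn hA hM hP hd hO hc 0 rfl B (f 0) (hf 0) (hfb 0)
  obtain ⟨t, ht, ht'⟩ := sgn hA hM hP hd hO hc 1 h01 B (f 1) (hf 1) (hfb 1)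
  have hort : ⟪b 0, b 1⟫_ℝ = 0 := b.orthonormal.2 (by norm_num)
  rw [L2.inner_def] at hort
  have hint : Integrable (fun y => ⟪b 0 y, b 1 y⟫_ℝ) (mu Ω) := L2.integrable_inner (b 0) (b 1)
  have hint2 : Integrable (fun y => (s * t) * ⟪b 0 y, b 1 y⟫_ℝ) (mu Ω) := hint.const_mul _
  have hpos : ∀ᵐ y ∂(mu Ω), 0 < (s * t) * ⟪b 0 y, b 1 y⟫_ℝ := by
    filter_upwards [hs', ht'] with y h1 h2
    have h3 : ⟪b 0 y, b 1 y⟫_ℝ = b 1 y * b 0 y := rfl
    rw [h3]
    have h4 := mul_pos h1 h2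
    have h5 : s * t * (b 1 y * b 0 y) = s * b 0 y * (t * b 1 y) := by ring
    rw [h5]
    exact h4
  have hzero : ∫ y, (s * t) * ⟪b 0 y, b 1 y⟫_ℝ ∂(mu Ω) = 0 := by
    rw [integral_const_mul, hort, mul_zero]
  have h6 := (integral_eq_zero_iff_of_nonneg_ae (hpos.mono fun y hy => hy.le) hint2).1 hzero
  have hev : ∀ᵐ y ∂(mu Ω), False := by
    filter_upwards [hpos, h6] with y h1 h2
    exact h1.ne' h2
  obtain ⟨y, hy⟩ := hev.exists
  exact hy

end

end Pool.Agent.BEH.H62
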