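import Pool.Agent.BEH.Stmts

/-!
# Row ERR of squad BEH (problem MP_be01ff_an)
-/

set_option autoImplicit false

namespace Pool.Agent.BEH.H62

open Pool.Agent.BE01 Pool.Agent.BEL Pool.Agent.BEH

theorem cc_le {N : ℕ} (c : Fin N → ℝ) (i k : Fin N) : |c i| * |c k| ≤ Pool.Agent.BEH.sq c := by
  have h : ∀ j, c j ^ 2 ≤ Pool.Agent.BEH.sq c := by
    intro j
    exact Finset.single_le_sum (f := fun j => c j ^ 2) (fun j _ => sq_nonneg (c j))
      (Finset.mem_univ j)
  have h1 := h i
  have h2 := h k
  have h3 := sq_abs (c i)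
  have h4 := sq_abs (c k)
  nlinarith [sq_nonneg (|c i| - |c k|)]

/-- Row ERR. -/
theorem err : ErrStmt := by
  intro d N B f c x y hf
  have hkey : lc f c y ^ 2 - lc f c x ^ 2 ≤ (∑ i, |c i| * |f i y - f i x|) *
      (∑ k, |c k| * (2 * B)) := by
    have h1 : lc f c y ^ 2 - lc f c x ^ 2 = (lc f c y - lc f c x) * (lc f c y + lc f c x) := by
      ring
    have h2 : |lc f c y - lc f c x| ≤ ∑ i, |c i| * |f i y - f i x| := by
      unfold lc
      rw [← Finset.sum_sub_distrib]
      refine (Finset.abs_sum_le_sum_abs _ _).trans (Finset.sum_le_sum fun i _ => ?_)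
      rw [← mul_sub, abs_mul]
    have h3 : |lc f c y + lc f c x| ≤ ∑ k, |c k| * (2 * B) := by
      unfold lc
      rw [← Finset.sum_add_distrib]
      refine (Finset.abs_sum_le_sum_abs _ _).trans (Finset.sum_le_sum fun i _ => ?_)
      rw [← mul_add, abs_mul]
      apply mul_le_mul_of_nonneg_left _ (abs_nonneg _)
      have ha := (hf i).2 x
      have hb := (hf i).2 y
      have hc := abs_add_le (f i y) (f i x)
      linarith
    rw [h1]
    calc (lc f c y - lc f c x) * (lc f c y + lc f c x)
        ≤ |(lc f c y - lc f c x) * (lc f c y + lc f c x)| := le_abs_self _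
      _ = |lc f c y - lc f c x| * |lc f c y + lc f c x| := abs_mul _ _
      _ ≤ _ := mul_le_mul h2 h3 (abs_nonneg _) (le_trans (abs_nonneg _) h2)
  have hprod : (∑ i, |c i| * |f i y - f i x|) * (∑ k, |c k| * (2 * B)) ≤
      2 * B * N * Pool.Agent.BEH.sq c * ∑ i, |f i y - f i x| := by
    rw [Finset.sum_mul_sum]
    have hle : ∀ i ∈ (Finset.univ : Finset (Fin N)),
        ∑ k, |c i| * |f i y - f i x| * (|c k| * (2 * B)) ≤
        2 * B * N * Pool.Agent.BEH.sq c * |f i y - f i x| := by
      intro i _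
      have hB : 0 ≤ B := (abs_nonneg _).trans ((hf i).2 x)
      have h4 : ∀ k ∈ (Finset.univ : Finset (Fin N)),
          |c i| * |f i y - f i x| * (|c k| * (2 * B)) ≤
            Pool.Agent.BEH.sq c * (|f i y - f i x| * (2 * B)) := by
        intro k _
        have h5 := mul_le_mul_of_nonneg_right (cc_le c i k)
          (show 0 ≤ |f i y - f i x| * (2 * B) by positivity)
        calc |c i| * |f i y - f i x| * (|c k| * (2 * B))
            = |c i| * |c k| * (|f i y - f i x| * (2 * B)) := by ring
          _ ≤ _ := h5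
      refine (Finset.sum_le_sum h4).trans (le_of_eq ?_)
      rw [Finset.sum_const, Finset.card_univ, Fintype.card_fin, nsmul_eq_mul]
      ring
    refine (Finset.sum_le_sum hle).trans (le_of_eq ?_)
    rw [Finset.mul_sum]
  linarith

end Pool.Agent.BEH.H62
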