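import Pool.Agent.BEH.StmtsD
import Pool.Agent.Helper43_BEH.HOL

/-!
# Squad BEH (MP_be01ff_an), row HOD: a hole at a Lebesgue point, every dimension
-/

set_option autoImplicit false

namespace Pool.Agent.BEH.H62

open Set Filter Topology MeasureTheory
open scoped InnerProductSpace ENNReal
open Pool.Agent.BE01 Pool.Agent.BEL Pool.Agent.BEH

theorem hod_aux {d : ℕ} (hd : 2 ≤ d) (hs : 0 < sphd d) {k : ℕ} (hk : 1 ≤ k) {lam : ℝ}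
    (hlam : 0 < lam) (hlamk : lam ^ k ≤ 1 / 2) {A : ℝ} {θ θ' : ℝ → ℝ} (hA : 0 < A)
    (hP : Prof A θ θ') (hfd : HfdStmt) {R : ℝ} (hR : 0 < R) {N : ℕ} {B : ℝ}
    {f : Fin N → En d → ℝ} {x : En d} {κ : ℝ} (hf : ∀ i, Bm B (f i)) (hl : ∀ i, Leb (f i) x)
    (hκ : 0 < κ) (rr : ℝ → ℝ)
    (hr : ∀ ρ : ℝ, 0 < ρ → ∃ γ₀ : ℝ, 0 < γ₀ ∧ ∀ γ, 0 < γ → γ < γ₀ → 0 < rr γ ∧ rr γ < ρ)
    (hcut : ∃ γ₀ : ℝ, 0 < γ₀ ∧ ∀ γ, 0 < γ → γ < γ₀ → ∃ η : En d → ℝ, Cut f x R κ γ (rr γ) η)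
    (hen : ∃ γ₀ : ℝ, 0 < γ₀ ∧ ∀ γ, 0 < γ → γ < γ₀ →
      (sphd d)⁻¹ * (∫ ρ in (lam * rr γ)..R, (ρ ^ (d - 1))⁻¹) ≤ 2 / γ) :
    ∃ γ₀ : ℝ, 0 < γ₀ ∧ ∀ γ : ℝ, 0 < γ → γ < γ₀ →
    ∃ (r : ℝ) (η ψ g h : En d → ℝ), 0 < r ∧ r < R ∧ Cut f x R κ γ r η ∧
      Fld x R (k * A * 2 ^ (d - 1) / (sphd d * R ^ d)) γ r ψ g h ∧
      ∀ i, |(∫ y, f i y * g y) - f i x| ≤ κ := by
  have hk0 : (0 : ℝ) < (k : ℝ) := by exact_mod_cast hk
  obtain ⟨D, hD⟩ : ∃ D : ℝ, D = k * A * 2 ^ (d - 1) / (sphd d * R ^ d) := ⟨_, rfl⟩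
  have hD0 : 0 < D := by rw [hD]; positivity
  obtain ⟨h, hh⟩ := hfd d k A θ θ' hd hk hA hP x R hR
  obtain ⟨κ', hκ'⟩ : ∃ κ' : ℝ, κ' = κ / (D * R ^ d) := ⟨_, rfl⟩
  have hκ0 : 0 < κ' := by rw [hκ']; positivity
  have h1 : ∀ i, ∃ ρ₀ : ℝ, 0 < ρ₀ ∧ ∀ ρ : ℝ, 0 < ρ → ρ ≤ ρ₀ →
      ∫ y in Metric.closedBall x ρ, |f i y - f i x| ≤ κ' * ρ ^ d := fun i => hl i κ' hκ0
  choose ρ₀ hρ₀ hρ using h1
  -- a common radius
  obtain ⟨ρ, hρpos, hρR, hρle⟩ : ∃ ρ : ℝ, 0 < ρ ∧ ρ ≤ R / 2 ∧ ∀ i, ρ ≤ ρ₀ i := by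
    rcases isEmpty_or_nonempty (Fin N) with hN | hN
    · exact ⟨R / 2, by positivity, le_refl _, fun i => (hN.false i).elim⟩
    · refine ⟨min (R / 2) (Finset.univ.inf' Finset.univ_nonempty ρ₀), ?_, min_le_left _ _, ?_⟩
      · refine lt_min (by positivity) ?_
        rw [Finset.lt_inf'_iff]
        intro i _
        exact hρ₀ i
      · intro i
        exact (min_le_right _ _).trans (Finset.inf'_le _ (Finset.mem_univ i))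
  obtain ⟨γ₁, hγ₁, h₁⟩ := hr ρ hρpos
  obtain ⟨γ₂, hγ₂, h₂⟩ := hcut
  obtain ⟨γ₃, hγ₃, h₃⟩ := hen
  refine ⟨min γ₁ (min γ₂ γ₃), lt_min hγ₁ (lt_min hγ₂ hγ₃), ?_⟩
  intro γ hγ hγlt
  have hlt1 : γ < γ₁ := hγlt.trans_le (min_le_left _ _)
  have hlt2 : γ < γ₂ := hγlt.trans_le ((min_le_right _ _).trans (min_le_left _ _))
  have hlt3 : γ < γ₃ := hγlt.trans_le ((min_le_right _ _).trans (min_le_right _ _))
  obtain ⟨hr0, hrρ⟩ := h₁ γ hγ hlt1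
  obtain ⟨η, hη⟩ := h₂ γ hγ hlt2
  have hr2 : 2 * rr γ ≤ R := by linarith
  have hrR : rr γ < R := by linarith
  obtain ⟨ψ, g, hF⟩ := hh (rr γ) γ lam hr0 hr2 hγ hlam hlamk (h₃ γ hγ hlt3)
  refine ⟨rr γ, η, ψ, g, h, hr0, hrR, hη, hF, ?_⟩
  intro i
  rw [← hD] at hF
  have h4 := Pool.Agent.BEH.H43.hol_val (hf i) hr0 hR hD0 hF
    (hρ i (rr γ) hr0 (hrρ.le.trans (hρle i)))
  have h5 : D * R ^ d * κ' = κ := by
    rw [hκ']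
    field_simp
  rwa [h5] at h4

/-- The energy for `d ≥ 3`. -/
theorem en_many {k : ℕ} (hk : 1 ≤ k) {a R : ℝ} (ha : 0 < a) (hR : 0 < R) :
    ∫ ρ in a..R, (ρ ^ (k + 1))⁻¹ ≤ (k : ℝ)⁻¹ * (a ^ k)⁻¹ := by
  have hk0 : (0 : ℝ) < (k : ℝ) := by exact_mod_cast hk
  have hpos : ∀ ρ ∈ Set.uIcc a R, 0 < ρ := by
    intro ρ hρ
    exact (lt_min ha hR).trans_le (Set.mem_uIcc.1 hρ |>.elim
      (fun h => (min_le_left _ _).trans h.1) (fun h => (min_le_right _ _).trans h.1))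
  have h2 : ∀ ρ ∈ Set.uIcc a R,
      HasDerivAt (fun ρ : ℝ => -((k : ℝ)⁻¹) * (ρ ^ k)⁻¹) ((ρ ^ (k + 1))⁻¹) ρ := by
    intro ρ hρ
    have h3 := hpos ρ hρ
    have h4 := ((hasDerivAt_pow k ρ).inv (pow_ne_zero k h3.ne')).const_mul (-((k : ℝ)⁻¹))
    refine h4.congr_deriv ?_
    obtain ⟨j, rfl⟩ : ∃ j, k = j + 1 := ⟨k - 1, by omega⟩
    rw [Nat.add_sub_cancel]
    field_simp
    ring
  rw [intervalIntegral.integral_eq_sub_of_hasDerivAt h2]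
  · have h5 : 0 < (k : ℝ)⁻¹ * (R ^ k)⁻¹ := by positivity
    linarith
  · refine ContinuousOn.intervalIntegrable ?_
    intro ρ hρ
    exact ((continuousAt_id.pow _).inv₀ (pow_pos (hpos ρ hρ) _).ne').continuousWithinAt

/-- Row HOD, written out. -/
theorem hod_strong (the : TheStmt) (hu2 : Hu2Stmt) (vod : VodStmt) (hud : HudStmt)
    (hfd : HfdStmt) : ∀ (d : ℕ), 2 ≤ d → ∀ R : ℝ, 0 < R → ∃ D : ℝ, 0 < D ∧
    ∀ (N : ℕ) (B : ℝ) (f : Fin N → En d → ℝ) (x : En d) (κ : ℝ), (∀ i, Bm B (f i)) →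
    (∀ i, Leb (f i) x) → 0 < κ → ∃ γ₀ : ℝ, 0 < γ₀ ∧ ∀ γ : ℝ, 0 < γ → γ < γ₀ →
    ∃ (r : ℝ) (η ψ g h : En d → ℝ), 0 < r ∧ r < R ∧ Cut f x R κ γ r η ∧ Fld x R D γ r ψ g h ∧
      ∀ i, |(∫ y, f i y * g y) - f i x| ≤ κ := by
  intro d hd R hR
  obtain ⟨A, θ, θ', hA, hP⟩ := the
  have hs : 0 < sphd d := (vod.1 d (by omega)).1
  have hpi := Real.pi_pos
  rcases Nat.lt_or_ge 2 d with hd3 | hd2
  · -- dimension at least 3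
    obtain ⟨k, rfl⟩ : ∃ k, d = k + 2 := ⟨d - 2, by omega⟩
    have hk : 1 ≤ k := by omega
    have hk0 : (0 : ℝ) < (k : ℝ) := by exact_mod_cast hk
    have hkn : k ≠ 0 := by omega
    obtain ⟨lam, hlam, hlamk⟩ : ∃ lam : ℝ, 0 < lam ∧ lam ^ k = 1 / 2 :=
      ⟨(1 / 2 : ℝ) ^ ((k : ℝ)⁻¹), by positivity,
        Real.rpow_inv_natCast_pow (by norm_num) hkn⟩
    refine ⟨k * A * 2 ^ (k + 2 - 1) / (sphd (k + 2) * R ^ (k + 2)), by positivity, ?_⟩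
    intro N B f x κ hf hl hκ
    have hrr : ∀ γ : ℝ, 0 < γ → 0 < (γ / (k * sphd (k + 2))) ^ ((k : ℝ)⁻¹) ∧
        ((γ / (k * sphd (k + 2))) ^ ((k : ℝ)⁻¹)) ^ k = γ / (k * sphd (k + 2)) := by
      intro γ hγ
      exact ⟨by positivity, Real.rpow_inv_natCast_pow (by positivity) hkn⟩
    have hsmall : ∀ ρ : ℝ, 0 < ρ → ∃ γ₀ : ℝ, 0 < γ₀ ∧ ∀ γ, 0 < γ → γ < γ₀ →
        0 < (γ / (k * sphd (k + 2))) ^ ((k : ℝ)⁻¹) ∧
        (γ / (k * sphd (k + 2))) ^ ((k : ℝ)⁻¹) < ρ := by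
      intro ρ hρ
      refine ⟨k * sphd (k + 2) * ρ ^ k, by positivity, ?_⟩
      intro γ hγ hγ2
      obtain ⟨h1, h2⟩ := hrr γ hγ
      refine ⟨h1, ?_⟩
      by_contra hcon
      have h3 := pow_le_pow_left₀ hρ.le (not_lt.1 hcon) k
      rw [h2, le_div_iff₀ (by positivity)] at h3
      linarith
    refine hod_aux hd hs hk hlam hlamk.le hA hP hfd hR hf hl hκ
      (fun γ => (γ / (k * sphd (k + 2))) ^ ((k : ℝ)⁻¹)) hsmall ?_ ?_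
    · obtain ⟨r₀, hr₀, hη⟩ := hud (k + 2) N B f x R κ (by omega) hf hl hR hκ
      obtain ⟨γ₀, hγ₀, hγ₁⟩ := hsmall r₀ hr₀
      refine ⟨γ₀, hγ₀, ?_⟩
      intro γ hγ hγ2
      obtain ⟨h1, h2⟩ := hγ₁ γ hγ hγ2
      obtain ⟨η, h3⟩ := hη _ h1 h2
      have h4 : (((k + 2 : ℕ) : ℝ) - 2) * sphd (k + 2) *
          ((γ / (k * sphd (k + 2))) ^ ((k : ℝ)⁻¹)) ^ (k + 2 - 2) = γ := by
        rw [Nat.add_sub_cancel, (hrr γ hγ).2]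
        push_cast
        rw [add_sub_cancel_right]
        field_simp
      rw [h4] at h3
      exact ⟨η, h3⟩
    · refine ⟨1, one_pos, ?_⟩
      intro γ hγ _
      obtain ⟨h1, h2⟩ := hrr γ hγ
      have h3 := en_many hk (a := lam * (γ / (k * sphd (k + 2))) ^ ((k : ℝ)⁻¹)) (R := R)
        (by positivity) hR
      have h4 : k + 2 - 1 = k + 1 := by omega
      rw [h4]
      rw [mul_pow, hlamk, h2] at h3
      have h5 := mul_le_mul_of_nonneg_left h3 (inv_pos.2 hs).le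
      refine h5.trans (le_of_eq ?_)
      field_simp
  · -- dimension 2
    obtain rfl : d = 2 := by omega
    refine ⟨((1 : ℕ) : ℝ) * A * 2 ^ (2 - 1) / (sphd 2 * R ^ 2), by positivity, ?_⟩
    intro N B f x κ hf hl hκ
    refine hod_aux hd hs (k := 1) le_rfl (lam := 1 / 2) (by norm_num) (by norm_num) hA hP hfd hR
      hf hl hκ (fun γ => Real.exp (-(2 * Real.pi / γ))) ?_ (hu2 N B f x R κ hf hl hR hκ) ?_
    · intro ρ hρ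
      refine ⟨2 * Real.pi * ρ, by positivity, ?_⟩
      intro γ hγ hγ2
      refine ⟨Real.exp_pos _, ?_⟩
      have h1 := Real.add_one_le_exp (2 * Real.pi / γ)
      have h2 : ρ⁻¹ < 2 * Real.pi / γ := by
        rw [lt_div_iff₀ hγ, inv_mul_lt_iff₀ hρ]
        linarith
      rw [Real.exp_neg]
      refine inv_lt_of_inv_lt₀ hρ ?_
      linarith
    · refine ⟨2 * Real.pi / (|Real.log (2 * R)| + 1), by positivity, ?_⟩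
      intro γ hγ hγ2
      have h1 := Pool.Agent.BEH.H43.en_two hR hγ hγ2
      have h2 : sph 2 = sphd 2 := by
        rw [vod.2]
        unfold sph
        norm_num
      have h3 : (1 / 2 : ℝ) * Real.exp (-(2 * Real.pi / γ)) =
          Real.exp (-(2 * Real.pi / γ)) / 2 := by ring
      rw [h2] at h1
      show (sphd 2)⁻¹ * (∫ ρ in ((1 / 2 : ℝ) * Real.exp (-(2 * Real.pi / γ)))..R,
        (ρ ^ (2 - 1))⁻¹) ≤ 2 / γ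
      rw [h3]
      exact h1

/-- Row HOD. -/
theorem hod (the : TheStmt) (hu2 : Hu2Stmt) (vod : VodStmt) (hud : HudStmt) (hfd : HfdStmt) :
    HodStmt := hod_strong the hu2 vod hud hfd

end Pool.Agent.BEH.H62
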