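import Pool.Agent.BEH.Stmts

/-!
# Row MMX of squad BEH (problem MP_be01ff_an): domain monotonicity of the eigenvalues
-/

set_option autoImplicit false

namespace Pool.Agent.BEH.H62

open Set Filter Topology MeasureTheory
open scoped InnerProductSpace ENNReal
open Pool.Agent.BE01 Pool.Agent.BEL Pool.Agent.BEH

noncomputable section

/-- The image of the normalized gradients. -/
theorem iota_e {d : ℕ} {Ω : Set (En d)} {ι : VV Ω →L[ℝ] Lp ℝ 2 (mu Ω)}
    {b : HilbertBasis ℕ ℝ (Lp ℝ 2 (mu Ω))} {e : HilbertBasis ℕ ℝ (VV Ω)} {om : ℕ → ℝ}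
    (h : Spec Ω ι b e om) (i : ℕ) : ι (e i) = (om i)⁻¹ • b i := by
  apply b.repr.injective
  ext j
  rw [b.repr_apply_apply, b.repr_apply_apply, h.rel j (e i), inner_smul_right,
    orthonormal_iff_ite.1 e.orthonormal j i, orthonormal_iff_ite.1 b.orthonormal j i]
  split_ifs with hji
  · rw [hji]
  · simp

theorem norm_sq_comb {H : Type*} [NormedAddCommGroup H] [InnerProductSpace ℝ H]
    {n : ℕ} (v : Fin n → H) (hv : Orthonormal ℝ v) (c : Fin n → ℝ) :
    ‖∑ i, c i • v i‖ ^ 2 = ∑ i, c i ^ 2 := by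
  rw [← real_inner_self_eq_norm_sq, hv.inner_sum c c Finset.univ]
  apply Finset.sum_congr rfl
  intro i _
  simp [pow_two]

/-- Row MMX. -/
theorem mmx (hE : ExtStmt) (hM : MmtStmt) : MmxStmt := by
  intro d Ω Ω' ι b e om ι' b' e' om' hO hO' hsub k
  obtain ⟨E, F, -, -, hEF⟩ := hE d Ω Ω' ι ι' hO.dom hO'.dom hsub hO.emb hO'.emb
  have hpos' := hO'.spec.pos
  have hoe : Orthonormal ℝ (fun i : Fin (k + 1) => e' (i : ℕ)) :=
    e'.orthonormal.comp _ Fin.val_injective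
  have hob : Orthonormal ℝ (fun i : Fin (k + 1) => b' (i : ℕ)) :=
    b'.orthonormal.comp _ Fin.val_injective
  let S : (Fin (k + 1) → ℝ) →ₗ[ℝ] VV Ω' :=
    Fintype.linearCombination ℝ (fun i : Fin (k + 1) => e' (i : ℕ))
  have hS : ∀ x, S x = ∑ i : Fin (k + 1), x i • e' (i : ℕ) := fun x => rfl
  have hSn : ∀ x, ‖S x‖ ^ 2 = ∑ i : Fin (k + 1), x i ^ 2 := by
    intro x
    rw [hS x]
    exact norm_sq_comb _ hoe x
  have hιS : ∀ x, ι' (S x) = ∑ i : Fin (k + 1), (x i * (om' i)⁻¹) • b' (i : ℕ) := by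
    intro x
    rw [hS x, map_sum]
    apply Finset.sum_congr rfl
    intro i _
    rw [map_smul, iota_e hO'.spec, smul_smul]
  have hιSn : ∀ x, ‖ι' (S x)‖ ^ 2 = ∑ i : Fin (k + 1), (x i * (om' i)⁻¹) ^ 2 := by
    intro x
    rw [hιS x]
    exact norm_sq_comb _ hob (fun i => x i * (om' i)⁻¹)
  let T : (Fin (k + 1) → ℝ) →ₗ[ℝ] VV Ω := F.toLinearMap ∘ₗ S
  have hT : ∀ x, T x = F (S x) := fun x => rfl
  have hTn : ∀ x, ‖T x‖ ^ 2 = ∑ i : Fin (k + 1), x i ^ 2 := by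
    intro x
    rw [hT, F.norm_map, hSn]
  have hιT : ∀ x, ‖ι (T x)‖ ^ 2 = ∑ i : Fin (k + 1), (x i * (om' i)⁻¹) ^ 2 := by
    intro x
    rw [hT, hEF, E.norm_map, hιSn]
  have hfin := hM d Ω ι b e om hO.spec k T (om' k ^ 2) (by
    intro x hx h0
    apply hx
    have h1 := hιT x
    rw [h0, norm_zero, zero_pow two_ne_zero] at h1
    have h2 := (Finset.sum_eq_zero_iff_of_nonneg (fun i _ => sq_nonneg (x i * (om' i)⁻¹))).1
      h1.symm
    funext i
    have h3 := h2 i (Finset.mem_univ i)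
    have h4 : x i * (om' i)⁻¹ = 0 := by
      simpa using h3
    rcases mul_eq_zero.1 h4 with h5 | h5
    · exact h5
    · exact absurd h5 (inv_ne_zero (hpos' i).ne')) (by
    intro x
    rw [hTn, hιT, Finset.mul_sum]
    apply Finset.sum_le_sum
    intro i _
    have hi : om' i ≤ om' k := hO'.spec.mono (Nat.lt_succ_iff.1 i.2)
    have h1 : 1 ≤ om' k * (om' i)⁻¹ := by
      rw [← div_eq_mul_inv, one_le_div (hpos' i)]
      exact hi
    have h2 : 1 ≤ (om' k * (om' i)⁻¹) ^ 2 := one_le_pow₀ h1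
    have h3 : om' k ^ 2 * (x i * (om' i)⁻¹) ^ 2 = (om' k * (om' i)⁻¹) ^ 2 * x i ^ 2 := by ring
    rw [h3]
    have h4 := mul_le_mul_of_nonneg_right h2 (sq_nonneg (x i))
    linarith)
  exact (sq_le_sq₀ (hO.spec.pos k).le (hpos' k).le).1 hfin

end

end Pool.Agent.BEH.H62
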